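import Pool.Agent.Helper8.ML.Planar

/-!
# Block MQ-EX: the area of a planar convex body with one more point
-/

set_option autoImplicit false
namespace Pool.Agent.Helper63.ML
open Complex Metric MeasureTheory
open scoped ComplexConjugate ENNReal
open Pool.Agent.Helper59.Pack

namespace MQEX

theorem area2_cont (p q : P2) : Continuous fun x : P2 => area2 x p q := by
  simp only [area2, det2, Pi.sub_apply]
  fun_prop

/-- Two disjoint open triangles beyond the side `p₁ p₂`. -/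
theorem two_tri {Q : Set P2} (hconv : Convex ℝ Q) (hcomp : IsCompact Q) {p₁ p₂ q z u v : P2}
    (m1 : p₁ ∈ Q) (m2 : p₂ ∈ Q) (h0 : q ∈ Q) (hz : z ∈ Q) (hu : u ∈ Q) (hv : v ∈ Q)
    (hq : area2 q p₁ p₂ < 0) (hz0 : area2 z p₁ p₂ ≤ 0) (hpos : 0 < area2 z u v)
    (hneg : ∀ s ∈ stdTri, area2 (triMap q p₁ p₂ s) u v < 0)
    (hpos2 : ∀ s ∈ stdTri, 0 < area2 (triMap z u v s) u v)
    (hl : ∀ s ∈ stdTri, area2 (triMap z u v s) p₁ p₂ < 0) :
    ENNReal.ofReal ((-area2 q p₁ p₂ + area2 z u v) / 2) ≤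
      volume (Q ∩ {x | area2 x p₁ p₂ < 0}) := by
  have hm : MeasurableSet Q := hcomp.isClosed.measurableSet
  have hmR : MeasurableSet (Q ∩ {x | area2 x p₁ p₂ < 0}) :=
    hm.inter (isOpen_lt (area2_cont _ _) continuous_const).measurableSet
  set R := Q ∩ {x | area2 x p₁ p₂ < 0} with hR
  have hmP : MeasurableSet (R ∩ {x | 0 < area2 x u v}) :=
    hmR.inter (isOpen_lt continuous_const (area2_cont _ _)).measurableSet
  have v1 : ENNReal.ofReal (-area2 q p₁ p₂ / 2) ≤ volume (R ∩ {x | area2 x u v < 0}) := by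
    rw [← abs_of_neg hq, ← vol_triMap]
    apply measure_mono
    rintro _ ⟨s, hs, rfl⟩
    refine ⟨⟨triMap_mem hconv h0 m1 m2 hs, ?_⟩, hneg s hs⟩
    obtain ⟨s0, s1, s2⟩ := hs
    rw [Set.mem_ofPred_eq, area2_triMap_left, area2_self_left, area2_self_right]
    have h5 : (1 - s 0 - s 1) * area2 q p₁ p₂ < 0 := mul_neg_of_pos_of_neg (by linarith) hq
    linarith
  have v2 : ENNReal.ofReal (area2 z u v / 2) ≤ volume (R ∩ {x | 0 < area2 x u v}) := by
    nth_rewrite 1 [← abs_of_pos hpos]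
    rw [← vol_triMap]
    apply measure_mono
    rintro _ ⟨s, hs, rfl⟩
    exact ⟨⟨triMap_mem hconv hz hu hv hs, hl s hs⟩, hpos2 s hs⟩
  have hd : Disjoint (R ∩ {x | area2 x u v < 0}) (R ∩ {x | 0 < area2 x u v}) :=
    Set.disjoint_left.2 (fun x hx hx' => by
      have h1 : area2 x u v < 0 := hx.2
      have h2 : 0 < area2 x u v := hx'.2
      linarith)
  calc ENNReal.ofReal ((-area2 q p₁ p₂ + area2 z u v) / 2)
      = ENNReal.ofReal (-area2 q p₁ p₂ / 2 + area2 z u v / 2) := by congr 1; ring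
    _ ≤ ENNReal.ofReal (-area2 q p₁ p₂ / 2) + ENNReal.ofReal (area2 z u v / 2) :=
        ENNReal.ofReal_add_le
    _ ≤ volume (R ∩ {x | area2 x u v < 0}) + volume (R ∩ {x | 0 < area2 x u v}) := by gcongr
    _ = volume ((R ∩ {x | area2 x u v < 0}) ∪ (R ∩ {x | 0 < area2 x u v})) := by
        rw [measure_union hd hmP]
    _ ≤ volume R := by
        apply measure_mono
        rintro x (hx | hx) <;> exact hx.1

/-- `vol_ge` with any lower bound for the part beyond the side `p₁ p₂`. -/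
theorem vol_ge_gen {Q : Set P2} (hconv : Convex ℝ Q) (hcomp : IsCompact Q) {p₀ p₁ p₂ : P2} {A : ℝ}
    (h : MaxTri Q p₀ p₁ p₂ A) {Y : ℝ}
    (v0 : ENNReal.ofReal (Y / 2) ≤ volume (Q ∩ {x | area2 x p₁ p₂ < 0}))
    {a₁ a₂ : P2} (ha₁ : a₁ ∈ Q) (ha₂ : a₂ ∈ Q) :
    ENNReal.ofReal ((A + Y + -area2 a₁ p₂ p₀ + -area2 a₂ p₀ p₁) / 2) ≤
      volume Q := by
  have hA := h.hA
  have hA0 := h.pos
  -- the three barycentric coordinates
  set l₀ : P2 → ℝ := fun x => area2 x p₁ p₂ with hl₀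
  set l₁ : P2 → ℝ := fun x => area2 x p₂ p₀ with hl₁
  set l₂ : P2 → ℝ := fun x => area2 x p₀ p₁ with hl₂
  have hsum : ∀ x, l₀ x + l₁ x + l₂ x = A := by
    intro x
    rw [← hA]
    simp only [hl₀, hl₁, hl₂, area2, det2, Pi.sub_apply]
    ring
  have hc₀ : Continuous l₀ := by simp only [hl₀, area2, det2, Pi.sub_apply]; fun_prop
  have hc₁ : Continuous l₁ := by simp only [hl₁, area2, det2, Pi.sub_apply]; fun_prop
  have hc₂ : Continuous l₂ := by simp only [hl₂, area2, det2, Pi.sub_apply]; fun_prop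
  have u₀ : ∀ x ∈ Q, l₀ x ≤ A := fun x hx => h.max _ hx _ h.m1 _ h.m2
  have u₁ : ∀ x ∈ Q, l₁ x ≤ A := fun x hx => h.max _ hx _ h.m2 _ h.m0
  have u₂ : ∀ x ∈ Q, l₂ x ≤ A := fun x hx => h.max _ hx _ h.m0 _ h.m1
  set X₁ := -l₁ a₁ with hX₁
  set X₂ := -l₂ a₂ with hX₂
  have l00 : l₀ p₀ = A := hA
  have l01 : l₀ p₁ = 0 := area2_self_left _ _
  have l02 : l₀ p₂ = 0 := area2_self_right _ _
  have l10 : l₁ p₀ = 0 := area2_self_right _ _
  have l11 : l₁ p₁ = A := by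
    simp only [hl₁]; rw [area2_cyc p₀ p₁ p₂]; exact hA
  have l12 : l₁ p₂ = 0 := area2_self_left _ _
  have l20 : l₂ p₀ = 0 := area2_self_left _ _
  have l21 : l₂ p₁ = 0 := area2_self_right _ _
  have l22 : l₂ p₂ = A := by
    simp only [hl₂]; rw [← area2_cyc p₂ p₀ p₁]; exact hA
  have hm : MeasurableSet Q := hcomp.isClosed.measurableSet
  set R₀ := Q ∩ {x | l₀ x < 0} with hR₀
  set R₁ := Q ∩ {x | l₁ x < 0} with hR₁
  set R₂ := Q ∩ {x | l₂ x < 0} with hR₂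
  set R := Q ∩ {x | 0 < l₀ x ∧ 0 < l₁ x ∧ 0 < l₂ x} with hR
  have hmR₀ : MeasurableSet R₀ := hm.inter (isOpen_lt hc₀ continuous_const).measurableSet
  have hmR₁ : MeasurableSet R₁ := hm.inter (isOpen_lt hc₁ continuous_const).measurableSet
  have hmR₂ : MeasurableSet R₂ := hm.inter (isOpen_lt hc₂ continuous_const).measurableSet
  have v1 : ENNReal.ofReal (X₁ / 2) ≤ volume R₁ := by
    rcases lt_or_ge 0 X₁ with hx | hx
    · have h1 : |area2 a₁ p₂ p₀| = X₁ := by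
        have : area2 a₁ p₂ p₀ = -X₁ := by rw [hX₁]; simp only [hl₁]; ring
        rw [this, abs_neg, abs_of_pos hx]
      rw [← h1, ← vol_triMap]
      apply measure_mono
      rintro _ ⟨s, hs, rfl⟩
      refine ⟨triMap_mem hconv ha₁ h.m2 h.m0 hs, ?_⟩
      obtain ⟨s0, s1, s2⟩ := hs
      have e : l₁ (triMap a₁ p₂ p₀ s) = (1 - s 0 - s 1) * l₁ a₁ + s 0 * l₁ p₂ + s 1 * l₁ p₀ :=
        area2_triMap_left _ _ _ _ _ _
      rw [Set.mem_ofPred_eq, e, l12, l10]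
      have : l₁ a₁ = -X₁ := by rw [hX₁]; ring
      rw [this]
      have h5 : 0 < (1 - s 0 - s 1) * X₁ := mul_pos (by linarith) hx
      linarith
    · rw [ENNReal.ofReal_of_nonpos (by linarith)]; exact zero_le
  have v2 : ENNReal.ofReal (X₂ / 2) ≤ volume R₂ := by
    rcases lt_or_ge 0 X₂ with hx | hx
    · have h1 : |area2 a₂ p₀ p₁| = X₂ := by
        have : area2 a₂ p₀ p₁ = -X₂ := by rw [hX₂]; simp only [hl₂]; ring
        rw [this, abs_neg, abs_of_pos hx]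
      rw [← h1, ← vol_triMap]
      apply measure_mono
      rintro _ ⟨s, hs, rfl⟩
      refine ⟨triMap_mem hconv ha₂ h.m0 h.m1 hs, ?_⟩
      obtain ⟨s0, s1, s2⟩ := hs
      have e : l₂ (triMap a₂ p₀ p₁ s) = (1 - s 0 - s 1) * l₂ a₂ + s 0 * l₂ p₀ + s 1 * l₂ p₁ :=
        area2_triMap_left _ _ _ _ _ _
      rw [Set.mem_ofPred_eq, e, l20, l21]
      have : l₂ a₂ = -X₂ := by rw [hX₂]; ring
      rw [this]
      have h5 : 0 < (1 - s 0 - s 1) * X₂ := mul_pos (by linarith) hx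
      linarith
    · rw [ENNReal.ofReal_of_nonpos (by linarith)]; exact zero_le
  have v : ENNReal.ofReal (A / 2) ≤ volume R := by
    have h1 : |area2 p₀ p₁ p₂| = A := by rw [hA, abs_of_pos hA0]
    rw [← h1, ← vol_triMap]
    apply measure_mono
    rintro _ ⟨s, hs, rfl⟩
    refine ⟨triMap_mem hconv h.m0 h.m1 h.m2 hs, ?_⟩
    obtain ⟨s0, s1, s2⟩ := hs
    have e0 : l₀ (triMap p₀ p₁ p₂ s) = (1 - s 0 - s 1) * l₀ p₀ + s 0 * l₀ p₁ + s 1 * l₀ p₂ :=
      area2_triMap_left _ _ _ _ _ _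
    have e1 : l₁ (triMap p₀ p₁ p₂ s) = (1 - s 0 - s 1) * l₁ p₀ + s 0 * l₁ p₁ + s 1 * l₁ p₂ :=
      area2_triMap_left _ _ _ _ _ _
    have e2 : l₂ (triMap p₀ p₁ p₂ s) = (1 - s 0 - s 1) * l₂ p₀ + s 0 * l₂ p₁ + s 1 * l₂ p₂ :=
      area2_triMap_left _ _ _ _ _ _
    rw [Set.mem_ofPred_eq, e0, e1, e2, l00, l01, l02, l10, l11, l12, l20, l21, l22]
    have h5 : 0 < (1 - s 0 - s 1) * A := mul_pos (by linarith) hA0
    have h6 : 0 < s 0 * A := mul_pos s0 hA0
    have h7 : 0 < s 1 * A := mul_pos s1 hA0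
    refine ⟨by linarith, by linarith, by linarith⟩
  -- disjointness
  have d0 : Disjoint R R₀ := Set.disjoint_left.2 (fun x hx hx' => by
    have h1 := hx.2.1; have h2 : l₀ x < 0 := hx'.2; linarith)
  have d1 : Disjoint (R ∪ R₀) R₁ := Set.disjoint_left.2 (fun x hx hx' => by
    have h2 : l₁ x < 0 := hx'.2
    rcases hx with hx | hx
    · have h1 := hx.2.2.1; linarith
    · have h1 : l₀ x < 0 := hx.2
      have h3 := u₂ x hx.1
      have h4 := hsum x
      linarith)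
  have d2 : Disjoint (R ∪ R₀ ∪ R₁) R₂ := Set.disjoint_left.2 (fun x hx hx' => by
    have h2 : l₂ x < 0 := hx'.2
    rcases hx with (hx | hx) | hx
    · have h1 := hx.2.2.2; linarith
    · have h1 : l₀ x < 0 := hx.2
      have h3 := u₁ x hx.1
      have h4 := hsum x
      linarith
    · have h1 : l₁ x < 0 := hx.2
      have h3 := u₀ x hx.1
      have h4 := hsum x
      linarith)
  calc ENNReal.ofReal ((A + Y + X₁ + X₂) / 2)
      = ENNReal.ofReal (A / 2 + Y / 2 + X₁ / 2 + X₂ / 2) := by congr 1; ring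
    _ ≤ ENNReal.ofReal (A / 2 + Y / 2 + X₁ / 2) + ENNReal.ofReal (X₂ / 2) :=
        ENNReal.ofReal_add_le
    _ ≤ (ENNReal.ofReal (A / 2 + Y / 2) + ENNReal.ofReal (X₁ / 2)) +
        ENNReal.ofReal (X₂ / 2) := by gcongr; exact ENNReal.ofReal_add_le
    _ ≤ (ENNReal.ofReal (A / 2) + ENNReal.ofReal (Y / 2) + ENNReal.ofReal (X₁ / 2)) +
        ENNReal.ofReal (X₂ / 2) := by gcongr; exact ENNReal.ofReal_add_le
    _ ≤ volume R + volume R₀ + volume R₁ + volume R₂ := by gcongr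
    _ = volume (R ∪ R₀ ∪ R₁ ∪ R₂) := by
        rw [measure_union d2 hmR₂, measure_union d1 hmR₁, measure_union d0 hmR₀]
    _ ≤ volume Q := by
        apply measure_mono
        rintro x (((hx | hx) | hx) | hx) <;> exact hx.1

end MQEX

/-! ## MQ-EX: the area with one more point -/
theorem vol_excess₁ {Q : Set P2} (hconv : Convex ℝ Q) (hcomp : IsCompact Q) {p₀ p₁ p₂ : P2} {A : ℝ}
    (h : MaxTri Q p₀ p₁ p₂ A) {q₀ q₁ q₂ z : P2} (h0 : q₀ ∈ Q) (h1 : q₁ ∈ Q) (h2 : q₂ ∈ Q)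
    (hz : z ∈ Q) (hq : area2 q₀ p₁ p₂ < 0) (hz0 : area2 z p₁ p₂ ≤ 0) :
    ENNReal.ofReal ((A - area2 q₀ p₁ p₂ - area2 q₁ p₂ p₀ - area2 q₂ p₀ p₁ + area2 z q₀ p₁) / 2) ≤
      volume Q := by
  rcases le_or_gt (area2 z q₀ p₁) 0 with hc | hc
  · refine le_trans (ENNReal.ofReal_le_ofReal ?_) (vol_ge hconv hcomp h h0 h1 h2)
    linarith
  · have e1 : area2 p₂ q₀ p₁ = area2 q₀ p₁ p₂ := by
      simp only [area2, det2, Pi.sub_apply]; ring
    have := MQEX.vol_ge_gen hconv hcomp h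
      (MQEX.two_tri hconv hcomp h.m1 h.m2 h0 hz h0 h.m1 hq hz0 hc ?_ ?_ ?_) h1 h2
    · convert this using 3
      ring
    · rintro s ⟨s0, s1, s2⟩
      rw [area2_triMap_left, area2_self_left, area2_self_right, e1]
      have h5 : s 1 * area2 q₀ p₁ p₂ < 0 := mul_neg_of_pos_of_neg s1 hq
      linarith
    · rintro s ⟨s0, s1, s2⟩
      rw [area2_triMap_left, area2_self_left, area2_self_right]
      have h5 : 0 < (1 - s 0 - s 1) * area2 z q₀ p₁ := mul_pos (by linarith) hc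
      linarith
    · rintro s ⟨s0, s1, s2⟩
      rw [area2_triMap_left, area2_self_left]
      have h5 : (1 - s 0 - s 1) * area2 z p₁ p₂ ≤ 0 :=
        mul_nonpos_of_nonneg_of_nonpos (by linarith) hz0
      have h6 : s 0 * area2 q₀ p₁ p₂ < 0 := mul_neg_of_pos_of_neg s0 hq
      linarith

theorem vol_excess₂ {Q : Set P2} (hconv : Convex ℝ Q) (hcomp : IsCompact Q) {p₀ p₁ p₂ : P2} {A : ℝ}
    (h : MaxTri Q p₀ p₁ p₂ A) {q₀ q₁ q₂ z : P2} (h0 : q₀ ∈ Q) (h1 : q₁ ∈ Q) (h2 : q₂ ∈ Q)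
    (hz : z ∈ Q) (hq : area2 q₀ p₁ p₂ < 0) (hz0 : area2 z p₁ p₂ ≤ 0) :
    ENNReal.ofReal ((A - area2 q₀ p₁ p₂ - area2 q₁ p₂ p₀ - area2 q₂ p₀ p₁ + area2 z p₂ q₀) / 2) ≤
      volume Q := by
  rcases le_or_gt (area2 z p₂ q₀) 0 with hc | hc
  · refine le_trans (ENNReal.ofReal_le_ofReal ?_) (vol_ge hconv hcomp h h0 h1 h2)
    linarith
  · have e1 : area2 p₁ p₂ q₀ = area2 q₀ p₁ p₂ := by
      simp only [area2, det2, Pi.sub_apply]; ring
    have := MQEX.vol_ge_gen hconv hcomp h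
      (MQEX.two_tri hconv hcomp h.m1 h.m2 h0 hz h.m2 h0 hq hz0 hc ?_ ?_ ?_) h1 h2
    · convert this using 3
      ring
    · rintro s ⟨s0, s1, s2⟩
      rw [area2_triMap_left, area2_self_left, area2_self_right, e1]
      have h5 : s 0 * area2 q₀ p₁ p₂ < 0 := mul_neg_of_pos_of_neg s0 hq
      linarith
    · rintro s ⟨s0, s1, s2⟩
      rw [area2_triMap_left, area2_self_left, area2_self_right]
      have h5 : 0 < (1 - s 0 - s 1) * area2 z p₂ q₀ := mul_pos (by linarith) hc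
      linarith
    · rintro s ⟨s0, s1, s2⟩
      rw [area2_triMap_left, area2_self_right]
      have h5 : (1 - s 0 - s 1) * area2 z p₁ p₂ ≤ 0 :=
        mul_nonpos_of_nonneg_of_nonpos (by linarith) hz0
      have h6 : s 1 * area2 q₀ p₁ p₂ < 0 := mul_neg_of_pos_of_neg s1 hq
      linarith

end Pool.Agent.Helper63.ML
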